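import Pool.Agent.Helper26.KD.StT

/-! # Project KD: module T0p -/

set_option autoImplicit false

open scoped BigOperators ENNReal Topology
open Pool.LE Pool.NL Filter

namespace Pool.KD

namespace T0pM

lemma mem_bx {d R : ℕ} {x : Zd d} : x ∈ bx d R ↔ ∀ i, -(R : ℤ) ≤ x i ∧ x i ≤ R := by
  simp [bx]

lemma bx_mono {d R R' : ℕ} (h : R ≤ R') {x : Zd d} (hx : x ∈ bx d R) : x ∈ bx d R' := by
  rw [mem_bx] at hx ⊢
  intro i
  have := hx i
  constructor <;> omega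

lemma bx_add {d R R' : ℕ} {x y : Zd d} (hx : x ∈ bx d R) (hy : y ∈ bx d R') :
    x + y ∈ bx d (R + R') := by
  rw [mem_bx] at hx hy ⊢
  intro i
  have h1 := hx i
  have h2 := hy i
  simp only [Pi.add_apply]
  push_cast
  constructor <;> omega

lemma nn_ge {d : ℕ} (x : Zd d) (i : Fin d) : |(x i : ℝ)| ≤ nn x := by
  unfold nn
  apply Real.abs_le_sqrt
  unfold LE.sq
  exact Finset.single_le_sum (f := fun i => (x i : ℝ) ^ 2) (fun j _ => sq_nonneg _)
    (Finset.mem_univ i)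

/-- outside of the box the norm is large -/
lemma nn_out {d R : ℕ} {x : Zd d} (hx : x ∉ bx d R) : (R : ℝ) + 1 ≤ nn x := by
  rw [mem_bx] at hx
  push Not at hx
  obtain ⟨i, hi⟩ := hx
  refine le_trans ?_ (nn_ge x i)
  by_cases h : -(R : ℤ) ≤ x i
  · have h1 : (R : ℤ) + 1 ≤ x i := by have := hi h; omega
    have h2 : ((R : ℝ) + 1) ≤ (x i : ℝ) := by exact_mod_cast h1
    exact h2.trans (le_abs_self _)
  · have h1 : (R : ℤ) + 1 ≤ - x i := by omega
    have h2 : ((R : ℝ) + 1) ≤ -(x i : ℝ) := by exact_mod_cast h1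
    exact h2.trans (neg_le_abs _)

lemma ww_far (hW : StW) {d : ℕ} (s m t : ℝ) (x : Zd d) (hs : 0 ≤ s) (hm : 1 ≤ m) (ht : 0 < t)
    (h : t ≤ nn x) : ww s m x ≤ 2 ^ s * (m / t) ^ s := by
  have h1 := ((hW d m hm).2.2.2.2.2.2.2 s x hs).2
  have hm0 : 0 < m := by linarith
  have h2 : (1 + nn x / m) ^ (-s) ≤ (t / m) ^ (-s) := by
    refine Real.rpow_le_rpow_of_nonpos (by positivity) ?_ (by linarith)
    have : t / m ≤ nn x / m := div_le_div_of_nonneg_right h hm0.le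
    linarith
  have h3 : (t / m) ^ (-s) = (m / t) ^ s := by
    rw [Real.rpow_neg (by positivity), ← Real.inv_rpow (by positivity), inv_div]
  rw [h3] at h2
  exact h1.trans (mul_le_mul_of_nonneg_left h2 (by positivity))

lemma M3_abs {d : ℕ} {g : Zd d → ℝ} {K : ℝ} (hg : M3 g K) : Summable (fun y => |g y|) := by
  refine Summable.of_nonneg_of_le (fun y => abs_nonneg _) (fun y => ?_) hg.summ
  have h1 : (1 : ℝ) ≤ (1 + nn y) ^ 3 := one_le_pow₀ (by
    have : 0 ≤ nn y := Real.sqrt_nonneg _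
    linarith)
  exact le_mul_of_one_le_left (abs_nonneg _) h1

/-- Lipschitz functions -/
lemma lip {d : ℕ} {g : Zd d → ℝ} {K : ℝ} (hg : M3 g K) (w : Zd d → ℝ) (v : Zd d) (L : ℝ)
    (hL : 0 ≤ L) (hw : ∀ x, |w x| ≤ 1) (hl : ∀ y, |w (v - y) - w v| ≤ L * nn y) :
    ∑' y, g y * w (v - y) ≤ (∑' y, g y) * w v + L * K := by
  have hs := M3_abs hg
  have s1 : Summable (fun y => g y * w (v - y)) := by
    refine Summable.of_norm_bounded hs fun y => ?_
    rw [Real.norm_eq_abs, abs_mul]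
    exact mul_le_of_le_one_right (abs_nonneg _) (hw _)
  have s2 : Summable g := hs.of_abs
  have s3 : Summable (fun y => g y * w v) := s2.mul_right _
  have s4 : Summable (fun y => L * ((1 + nn y) ^ 3 * |g y|)) := hg.summ.mul_left L
  have h1 : ∑' y, g y * w (v - y) ≤ ∑' y, (g y * w v + L * ((1 + nn y) ^ 3 * |g y|)) := by
    refine s1.tsum_le_tsum (fun y => ?_) (s3.add s4)
    have h2 : g y * w (v - y) = g y * w v + g y * (w (v - y) - w v) := by ring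
    rw [h2]
    have hn : 0 ≤ nn y := Real.sqrt_nonneg _
    have h3 : g y * (w (v - y) - w v) ≤ |g y| * (L * nn y) := by
      refine (le_abs_self _).trans ?_
      rw [abs_mul]
      exact mul_le_mul_of_nonneg_left (hl y) (abs_nonneg _)
    have h4 : nn y ≤ (1 + nn y) ^ 3 := by nlinarith [mul_nonneg hn hn, mul_nonneg hn (mul_nonneg hn hn)]
    have h5 : |g y| * (L * nn y) ≤ L * ((1 + nn y) ^ 3 * |g y|) := by
      calc |g y| * (L * nn y) = L * (nn y * |g y|) := by ring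
        _ ≤ _ := mul_le_mul_of_nonneg_left (mul_le_mul_of_nonneg_right h4 (abs_nonneg _)) hL
    linarith
  rw [s3.tsum_add s4, tsum_mul_right, tsum_mul_left] at h1
  have h6 := mul_le_mul_of_nonneg_left hg.le hL
  linarith

/-- the interior estimate -/
lemma inner (hW : StW) (hTl : StTl) {d : ℕ} {K A C : ℝ} (hE : EK d K A)
    (hC : ∀ (F : Zd d → ℝ) (K m : ℝ), SymF F → M3 F K → 1 ≤ m → ∀ x : Zd d,
      Summable (fun y => F y * ww (11 / 4) m (x - y)) ∧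
      Summable (fun y => if m + nn x < 2 * nn y then |F y| * ww (11 / 4) m (x - y) else 0) ∧
      |ww (11 / 4) m x - ∑' y, F y * ww (11 / 4) m (x - y) - (1 - ∑' y, F y) * ww (11 / 4) m x -
        (∑' y, LE.sq y * F y) / (2 * d) / m ^ 2 * fs (11 / 4) m x| ≤
          C * K / m ^ 3 * ww (11 / 4 + 3) m x +
          ∑' y, if m + nn x < 2 * nn y then |F y| * ww (11 / 4) m (x - y) else 0)
    (hC0 : 0 ≤ C) (m : ℝ) (hm : 1 ≤ m) (x : Zd d) :
    A / m ^ 2 * fs (11 / 4) m x - (C + 8) * K / m ^ 3 * ww (11 / 4) m x ≤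
      ww (11 / 4) m x - ∑' y, FZ d (pH d) y * ww (11 / 4) m (x - y) := by
  obtain ⟨h1, h2, h3⟩ := hC (FZ d (pH d)) K m hE.Fsym hE.FM hm x
  rw [hE.F1, hE.F2, sub_self, zero_mul, sub_zero] at h3
  obtain ⟨h4, h5⟩ := hTl d (FZ d (pH d)) K m hE.FM hm x
  have hW' := hW d m hm
  have h6 : (∑' y, if m + nn x < 2 * nn y then |FZ d (pH d) y| * ww (11 / 4) m (x - y) else 0) ≤
      ∑' y, (if m + nn x < 2 * nn y then |FZ d (pH d) y| else 0) := by
    refine h2.tsum_le_tsum (fun y => ?_) h4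
    split_ifs
    · exact mul_le_of_le_one_right (abs_nonneg _)
        (hW'.2.2.1 (11 / 4) (x - y) (by norm_num)).2.1
    · exact le_rfl
  have h7 : ww 3 m x ≤ ww (11 / 4) m x := hW'.2.2.2.1 (11 / 4) 3 x (by norm_num)
  have h8 : ww (11 / 4 + 3) m x ≤ ww (11 / 4) m x := hW'.2.2.2.1 (11 / 4) (11 / 4 + 3) x (by norm_num)
  have hm0 : 0 < m := by linarith
  have hK := hE.hK
  have h9 : C * K / m ^ 3 * ww (11 / 4 + 3) m x ≤ C * K / m ^ 3 * ww (11 / 4) m x :=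
    mul_le_mul_of_nonneg_left h8 (by positivity)
  have h10 : 8 * K / m ^ 3 * ww 3 m x ≤ 8 * K / m ^ 3 * ww (11 / 4) m x :=
    mul_le_mul_of_nonneg_left h7 (by positivity)
  have h11 : (C + 8) * K / m ^ 3 * ww (11 / 4) m x =
      C * K / m ^ 3 * ww (11 / 4) m x + 8 * K / m ^ 3 * ww (11 / 4) m x := by ring
  have h12 := (abs_le.1 h3).1
  rw [h11]
  linarith

/-- the source far away -/
lemma outer_fs (hW : StW) (hFs : StFs) {d : ℕ} {K A : ℝ} (hE : EK d K A) (n D : ℕ) (hn : 1 ≤ n)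
    (hnD : n ≤ D) (x : Zd d) (hx : x ∉ bx d (D / 2)) :
    A / (n : ℝ) ^ 2 * fs (11 / 4) n x ≤ 2816 * (A * d) * ((n : ℝ) / D) ^ (11 / 4 : ℝ) := by
  have hd := hE.hd
  have hdR : (21 : ℝ) ≤ d := by exact_mod_cast hd
  have hnR : (1 : ℝ) ≤ n := by exact_mod_cast hn
  have hDR : (n : ℝ) ≤ D := by exact_mod_cast hnD
  have hD0 : (0 : ℝ) < D := by linarith
  have hn0 : (0 : ℝ) < n := by linarith
  have hA := hE.hA
  have h1 := (hFs d (11 / 4) n x hnR (by norm_num) (by linarith)).2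
  have h2 : (D : ℝ) / 2 ≤ nn x := by
    have h3 := nn_out hx
    have h4 : (D : ℝ) ≤ 2 * ((D / 2 : ℕ) : ℝ) + 1 := by
      have : D ≤ 2 * (D / 2) + 1 := by omega
      exact_mod_cast this
    linarith
  have h3 := ww_far hW (11 / 4 + 2) n (D / 2) x (by norm_num) hnR (by positivity) h2
  have h4 : ((n : ℝ) / (D / 2)) ^ (11 / 4 + 2 : ℝ) =
      2 ^ (11 / 4 + 2 : ℝ) * (((n : ℝ) / D) ^ (11 / 4 : ℝ) * ((n : ℝ) / D) ^ 2) := by
    have e1 : (n : ℝ) / (D / 2) = 2 * ((n : ℝ) / D) := by field_simp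
    rw [e1, Real.mul_rpow (by norm_num) (by positivity), Real.rpow_add (by positivity)
      (x := (n : ℝ) / D)]
    norm_num
  have h5 : (2 : ℝ) ^ (11 / 4 + 2 : ℝ) ≤ 32 := by
    have : (2 : ℝ) ^ (11 / 4 + 2 : ℝ) ≤ (2 : ℝ) ^ (5 : ℝ) :=
      Real.rpow_le_rpow_of_exponent_le (by norm_num) (by norm_num)
    refine this.trans (le_of_eq ?_)
    norm_num
  obtain ⟨P, hP⟩ : ∃ P, P = ((n : ℝ) / D) ^ (11 / 4 : ℝ) := ⟨_, rfl⟩
  have hP0 : 0 ≤ P := by rw [hP]; positivity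
  rw [← hP] at h4 ⊢
  rw [h4] at h3
  have h50 : (0 : ℝ) ≤ (2 : ℝ) ^ (11 / 4 + 2 : ℝ) := by positivity
  have h6 : ww (11 / 4 + 2) n x ≤ 1024 * (P * ((n : ℝ) / D) ^ 2) := by
    refine h3.trans ?_
    have h7 : (2 : ℝ) ^ (11 / 4 + 2 : ℝ) * (2 ^ (11 / 4 + 2 : ℝ) * (P * ((n : ℝ) / D) ^ 2)) =
        ((2 : ℝ) ^ (11 / 4 + 2 : ℝ) * 2 ^ (11 / 4 + 2 : ℝ)) * (P * ((n : ℝ) / D) ^ 2) := by ring
    rw [h7]
    have h8 : (2 : ℝ) ^ (11 / 4 + 2 : ℝ) * 2 ^ (11 / 4 + 2 : ℝ) ≤ 32 * 32 :=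
      mul_le_mul h5 h5 h50 (by norm_num)
    have h9 : 0 ≤ P * ((n : ℝ) / D) ^ 2 := by positivity
    calc _ ≤ 32 * 32 * (P * ((n : ℝ) / D) ^ 2) := mul_le_mul_of_nonneg_right h8 h9
      _ = _ := by norm_num
  have h7 : fs (11 / 4) n x ≤ 11 / 4 * d * (1024 * (P * ((n : ℝ) / D) ^ 2)) :=
    h1.trans (mul_le_mul_of_nonneg_left h6 (by positivity))
  have h8 : A / (n : ℝ) ^ 2 * fs (11 / 4) n x ≤
      A / (n : ℝ) ^ 2 * (11 / 4 * d * (1024 * (P * ((n : ℝ) / D) ^ 2))) :=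
    mul_le_mul_of_nonneg_left h7 (by positivity)
  refine h8.trans ?_
  have h9 : A / (n : ℝ) ^ 2 * (11 / 4 * d * (1024 * (P * ((n : ℝ) / D) ^ 2))) =
      2816 * (A * d) * P * (1 / (D : ℝ) ^ 2) := by
    field_simp
    ring
  rw [h9]
  have hD1 : (1 : ℝ) ≤ (D : ℝ) ^ 2 := one_le_pow₀ (by linarith)
  have h10 : 1 / (D : ℝ) ^ 2 ≤ 1 := by
    rw [div_le_one (by positivity)]
    exact hD1
  exact mul_le_of_le_one_right (by positivity) h10

/-- the weight far away -/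
lemma outer_w (hW : StW) {d : ℕ} (n D : ℕ) (hn : 1 ≤ n) (hnD : n ≤ D) (hD2 : 2 ≤ D) (x y : Zd d)
    (hx : x ∉ bx d (D / 2)) (hy : y ∈ bx d (max 1 (D / 4))) :
    ww (11 / 4) (n : ℝ) (x + y) ≤ 512 * ((n : ℝ) / D) ^ (11 / 4 : ℝ) := by
  have hnR : (1 : ℝ) ≤ n := by exact_mod_cast hn
  have hDR : (n : ℝ) ≤ D := by exact_mod_cast hnD
  have hD0 : (0 : ℝ) < D := by linarith
  have hn0 : (0 : ℝ) < n := by linarith
  have h1 : x + y ∉ bx d (D / 2 - max 1 (D / 4)) := by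
    intro h
    apply hx
    have h2 : -y ∈ bx d (max 1 (D / 4)) := by
      rw [mem_bx] at hy ⊢
      intro i
      have := hy i
      simp only [Pi.neg_apply]
      constructor <;> omega
    have h3 := bx_add h h2
    rw [add_neg_cancel_right] at h3
    refine bx_mono (le_of_eq ?_) h3
    omega
  have h2 : (D : ℝ) / 4 ≤ nn (x + y) := by
    have h3 := nn_out h1
    have h4 : (D : ℝ) ≤ 4 * (((D / 2 - max 1 (D / 4) : ℕ) : ℝ) + 1) := by
      have : D ≤ 4 * ((D / 2 - max 1 (D / 4)) + 1) := by omega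
      exact_mod_cast this
    linarith
  have h3 := ww_far hW (11 / 4) n (D / 4) (x + y) (by norm_num) hnR (by positivity) h2
  have h4 : ((n : ℝ) / (D / 4)) ^ (11 / 4 : ℝ) = 4 ^ (11 / 4 : ℝ) * ((n : ℝ) / D) ^ (11 / 4 : ℝ) := by
    have e1 : (n : ℝ) / (D / 4) = 4 * ((n : ℝ) / D) := by field_simp
    rw [e1, Real.mul_rpow (by norm_num) (by positivity)]
  rw [h4, ← mul_assoc, ← Real.mul_rpow (by norm_num) (by norm_num)] at h3
  refine h3.trans (mul_le_mul_of_nonneg_right ?_ (by positivity))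
  have : ((2 : ℝ) * 4) ^ (11 / 4 : ℝ) ≤ (2 * 4 : ℝ) ^ (3 : ℝ) :=
    Real.rpow_le_rpow_of_exponent_le (by norm_num) (by norm_num)
  refine this.trans (le_of_eq ?_)
  norm_num

end T0pM

open T0pM in
/-- **upper bound for the truncation** -/
theorem hT0p (hId : StId) (hLoc : StLoc) (hTb : StTb) (hExp : StExp) (hFs : StFs) (hTl : StTl)
    (hWc : StWc) (hW : StW) (hHh : StHh) (hBn : StBn) (hTrL : StTrL) : StT0p := by
  intro d K A hE
  have hd := hE.hd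
  have hK := hE.hK
  have hA := hE.hA
  have hp0 := hE.p0
  have hp1 : pH d ≤ 1 := by linarith [hE.p1]
  obtain ⟨C₁, hC₁, hexp⟩ := hExp d (11 / 4) (by omega) (by norm_num)
  obtain ⟨C₂, hC₂, hwc⟩ := hWc (11 / 4) 1 (by norm_num) le_rfl
  obtain ⟨c₁, hc₁⟩ : ∃ c₁, c₁ = (C₁ + 8) * K := ⟨_, rfl⟩
  obtain ⟨c₂, hc₂⟩ : ∃ c₂, c₂ = 1536 + 2816 * (A * d) := ⟨_, rfl⟩
  have hAd : 0 ≤ A * d := by positivity
  have hc₁0 : 0 ≤ c₁ := by rw [hc₁]; positivity
  have hc₂0 : 0 ≤ c₂ := by rw [hc₂]; positivity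
  have hK0 : 0 ≤ K := by linarith
  have hC₂0 : 0 ≤ C₂ := by linarith
  have hall : 1 ≤ 1 + c₁ * K + 16 * K * c₂ + C₂ * K + 27 := by
    have a1 : 0 ≤ c₁ * K := mul_nonneg hc₁0 hK0
    have a2 : 0 ≤ 16 * K * c₂ := by positivity
    have a3 : 0 ≤ C₂ * K := mul_nonneg hC₂0 hK0
    linarith
  refine ⟨1 + c₁ * K + 16 * K * c₂ + C₂ * K + 27, hall, fun n N D c v hn hnD hD2 hND hc hv => ?_⟩
  have hnR : (1 : ℝ) ≤ n := by exact_mod_cast hn
  have hDR : (n : ℝ) ≤ D := by exact_mod_cast hnD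
  have hD0 : (0 : ℝ) < D := by linarith
  have hn0 : (0 : ℝ) < n := by linarith
  have hWn := hW d n hnR
  obtain ⟨P, hP⟩ : ∃ P, P = ((n : ℝ) / D) ^ (11 / 4 : ℝ) := ⟨_, rfl⟩
  have hP0 : 0 ≤ P := by rw [hP]; positivity
  obtain ⟨w, hw⟩ : ∃ w : Zd d → ℝ, w = fun x => ww (11 / 4) n (x - c) := ⟨_, rfl⟩
  have hwa : ∀ x, w x = ww (11 / 4) n (x - c) := fun x => by rw [hw]
  have hw0 : ∀ x, 0 < w x := fun x => by rw [hwa]; exact (hWn.2.2.1 _ _ (by norm_num)).1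
  have hw1 : ∀ x, |w x| ≤ 1 := fun x => by
    rw [abs_of_pos (hw0 x), hwa]
    exact (hWn.2.2.1 _ _ (by norm_num)).2.1
  -- points near the centre are deep
  have hdeep : ∀ b : Zd d, b - c ∈ bx d (D / 2) → ∀ y ∈ bx d (D / 2), b + y ∈ Bn d N := by
    intro b hb y hy
    have h1 := bx_mono (by omega : D / 2 + D / 2 ≤ D) (bx_add hb hy)
    have h2 := hc _ h1
    have e : c + (b - c + y) = b + y := by abel
    rwa [e] at h2
  have hvN : v ∈ Bn d N := by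
    have h1 : (0 : Zd d) ∈ bx d (D / 2) := by
      rw [mem_bx]
      intro i
      rw [Pi.zero_apply]
      constructor <;> omega
    have := hdeep v hv 0 h1
    rwa [add_zero] at this
  have hN1 : 1 ≤ N := by
    rcases Nat.eq_zero_or_pos N with h | h
    · exfalso
      subst h
      have h1 := ((hBn d 0).2.2.2.1 v).1 hvN ⟨0, by omega⟩
      have h2 := h1.1
      have h3 := h1.2
      push_cast at h3
      omega
    · exact h
  have hR1 : 1 ≤ D / 2 := by omega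
  have hR2 : (D : ℝ) ≤ 3 * ((D / 2 : ℕ) : ℝ) := by
    have : D ≤ 3 * (D / 2) := by omega
    exact_mod_cast this
  have hR3 : 1 / ((D / 2 : ℕ) : ℝ) ^ 3 ≤ 27 / (D : ℝ) ^ 3 := by
    have h0 : (0 : ℝ) < ((D / 2 : ℕ) : ℝ) := by exact_mod_cast hR1
    rw [div_le_div_iff₀ (by positivity) (by positivity)]
    have := pow_le_pow_left₀ hD0.le hR2 3
    nlinarith
  have hD3 : 1 / (D : ℝ) ^ 3 ≤ 1 / n := by
    apply one_div_le_one_div_of_le hn0
    have h1 : (1 : ℝ) ≤ (D : ℝ) ^ 2 := one_le_pow₀ (by linarith)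
    calc (n : ℝ) ≤ D := hDR
      _ = 1 * D := (one_mul _).symm
      _ ≤ (D : ℝ) ^ 2 * D := mul_le_mul_of_nonneg_right h1 hD0.le
      _ = _ := by ring
  -- pointwise lower bound
  have hpt : ∀ b ∈ Bn d N, A / (n : ℝ) ^ 2 * fs (11 / 4) n (b - c) ≤
      (w b - KT d N w b) + (c₁ / (n : ℝ) ^ 3 * w b + c₂ * (1 / (D : ℝ) ^ 3 + P)) := by
    intro b hb
    have hc1w : 0 ≤ c₁ / (n : ℝ) ^ 3 * w b := mul_nonneg (by positivity) (hw0 b).le
    by_cases hbc : b - c ∈ bx d (D / 2)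
    · have h1 := (hLoc d K A hE N (D / 2) w hR1 hw1 b (hdeep b hbc)).1
      have h2 := inner hW hTl hE (fun F K m h1 h2 h3 x => hexp F K m h1 h2 h3 x) (by linarith) n hnR
        (b - c)
      have h3 : ∑' y, FZ d (pH d) y * w (b - y) =
          ∑' y, FZ d (pH d) y * ww (11 / 4) n (b - c - y) := by
        refine tsum_congr fun y => ?_
        rw [hwa, sub_right_comm]
      rw [h3] at h1
      have h4 := (abs_le.1 h1).2
      have h5 : 2 / ((D / 2 : ℕ) : ℝ) ^ 3 ≤ c₂ * (1 / (D : ℝ) ^ 3) := by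
        have e1 : 2 / ((D / 2 : ℕ) : ℝ) ^ 3 = 2 * (1 / ((D / 2 : ℕ) : ℝ) ^ 3) := by ring
        have e2 : 27 / (D : ℝ) ^ 3 = 27 * (1 / (D : ℝ) ^ 3) := by ring
        rw [e2] at hR3
        rw [e1]
        have h6 : (54 : ℝ) ≤ c₂ := by rw [hc₂]; linarith
        have h7 : 54 * (1 / (D : ℝ) ^ 3) ≤ c₂ * (1 / (D : ℝ) ^ 3) :=
          mul_le_mul_of_nonneg_right h6 (by positivity)
        linarith
      have h6 : 0 ≤ c₂ * P := mul_nonneg hc₂0 hP0
      rw [← hc₁, ← hwa b] at h2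
      rw [mul_add]
      linarith
    · have h1 := outer_fs hW hFs hE n D hn hnD (b - c) hbc
      rw [← hP] at h1
      have h2 : ∀ y ∈ bx d (max 1 (D / 4)), |w (b + y)| ≤ 512 * P := by
        intro y hy
        rw [abs_of_pos (hw0 _), hwa, hP]
        have := outer_w hW n D hn hnD hD2 (b - c) y hbc hy
        have e : b + y - c = b - c + y := by abel
        rwa [e]
      have h3 := hTb d K A hE N (max 1 (D / 4)) w (512 * P) (le_max_left _ _) (by positivity) hw1 b hb h2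
      have h4 := (abs_le.1 h3).2
      have h5 : 3 / ((max 1 (D / 4) : ℕ) : ℝ) ^ 3 ≤ 1536 * (1 / (D : ℝ) ^ 3) := by
        have h6 : (D : ℝ) ≤ 8 * ((max 1 (D / 4) : ℕ) : ℝ) := by
          have : D ≤ 8 * (max 1 (D / 4)) := by omega
          exact_mod_cast this
        have h0 : (0 : ℝ) < ((max 1 (D / 4) : ℕ) : ℝ) := by
          have : 0 < max 1 (D / 4) := by omega
          exact_mod_cast this
        rw [mul_one_div, div_le_div_iff₀ (by positivity) (by positivity)]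
        have := pow_le_pow_left₀ hD0.le h6 3
        nlinarith
      have h6 := hw0 b
      have h7 : 1536 * (1 / (D : ℝ) ^ 3) ≤ c₂ * (1 / (D : ℝ) ^ 3) :=
        mul_le_mul_of_nonneg_right (by rw [hc₂]; linarith) (by positivity)
      have h8 : (2816 * (A * d) + 1536) * P = c₂ * P := by rw [hc₂]; ring
      rw [mul_add, ← h8]
      linarith
  -- summation
  have hcp0 : ∀ b, 0 ≤ cp (ES (Bn d N)) (pH d) v b := fun b =>
    ((hHh (Zd d) (Bn d N) (ES (Bn d N)) (2 * d) (pH d) (hBn d N).1 hp0.le hp1).2.1 v b).2.1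
  have hsum : ∑ b ∈ Bn d N, cp (ES (Bn d N)) (pH d) v b * (A / (n : ℝ) ^ 2 * fs (11 / 4) n (b - c)) ≤
      ∑ b ∈ Bn d N, cp (ES (Bn d N)) (pH d) v b * ((w b - KT d N w b) +
        (c₁ / (n : ℝ) ^ 3 * w b + c₂ * (1 / (D : ℝ) ^ 3 + P))) :=
    Finset.sum_le_sum fun b hb => mul_le_mul_of_nonneg_left (hpt b hb) (hcp0 b)
  have hsplit : ∑ b ∈ Bn d N, cp (ES (Bn d N)) (pH d) v b * ((w b - KT d N w b) +
        (c₁ / (n : ℝ) ^ 3 * w b + c₂ * (1 / (D : ℝ) ^ 3 + P))) =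
      ∑ b ∈ Bn d N, cp (ES (Bn d N)) (pH d) v b * (w b - KT d N w b) +
      c₁ / (n : ℝ) ^ 3 * ∑ b ∈ Bn d N, cp (ES (Bn d N)) (pH d) v b * w b +
      c₂ * (1 / (D : ℝ) ^ 3 + P) * ∑ b ∈ Bn d N, cp (ES (Bn d N)) (pH d) v b := by
    rw [Finset.mul_sum, Finset.mul_sum, ← Finset.sum_add_distrib, ← Finset.sum_add_distrib]
    refine Finset.sum_congr rfl fun b _ => ?_
    ring
  rw [hsplit, hId d K A hE N w v hvN] at hsum
  have hlhs : A / (n : ℝ) ^ 2 * ∑ b ∈ Bn d N, cp (ES (Bn d N)) (pH d) v b * fs (11 / 4) n (b - c) =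
      ∑ b ∈ Bn d N, cp (ES (Bn d N)) (pH d) v b * (A / (n : ℝ) ^ 2 * fs (11 / 4) n (b - c)) := by
    rw [Finset.mul_sum]
    refine Finset.sum_congr rfl fun b _ => ?_
    ring
  rw [hlhs]
  refine hsum.trans ?_
  -- the three sums
  have hS1 : ∑ x ∈ Bn d N, gT (ES (Bn d N)) (pH d) v x * w x ≤
      (∑' y, gS d (pH d) y) * ww (11 / 4) n (v - c) + C₂ * K / n + 27 / n := by
    have h1 := (abs_le.1 (hLoc d K A hE N (D / 2) w hR1 hw1 v (hdeep v hv)).2).2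
    have h2 := lip hE.gM w v (C₂ / n) (by positivity) hw1 (by
      intro y
      have h3 := (hwc d n hnR).2.2.2.1 (v - c) (-y)
      rw [(hWn.1 y).2.2.2.1] at h3
      have e : v - y - c = v - c + -y := by abel
      rw [hwa, hwa, e]
      refine h3.trans (le_of_eq ?_)
      ring)
    rw [hwa v] at h2
    have h4 : 27 / (D : ℝ) ^ 3 ≤ 27 / n := by
      have e1 : 27 / (D : ℝ) ^ 3 = 27 * (1 / (D : ℝ) ^ 3) := by ring
      have e2 : 27 / (n : ℝ) = 27 * (1 / n) := by ring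
      rw [e1, e2]
      exact mul_le_mul_of_nonneg_left hD3 (by norm_num)
    have h5 : C₂ / (n : ℝ) * K = C₂ * K / n := by ring
    rw [h5] at h2
    linarith
  have hS2 : ∑ b ∈ Bn d N, cp (ES (Bn d N)) (pH d) v b * w b ≤ K * (n : ℝ) ^ 2 := by
    have h1 : ∑ b ∈ Bn d N, cp (ES (Bn d N)) (pH d) v b * w b ≤
        ∑ b ∈ Bn d N, tau d (pH d) (b - v) * w b := by
      refine Finset.sum_le_sum fun b _ => mul_le_mul_of_nonneg_right ?_ (hw0 b).le
      exact (hTrL d 0 0 (pH d) hp0.le hp1).2.2.2.1 (Bn d N) v b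
    refine h1.trans ?_
    have h2 := hE.tw n ((Bn d N).image fun b => b - c) (v - c) hnR
    rw [Finset.sum_image (fun a _ b _ h => sub_left_injective h)] at h2
    refine le_trans (le_of_eq ?_) h2
    refine Finset.sum_congr rfl fun b _ => ?_
    rw [hwa, sub_sub_sub_cancel_right]
  have hS3 : ∑ b ∈ Bn d N, cp (ES (Bn d N)) (pH d) v b ≤ 16 * K * (D : ℝ) ^ 2 := by
    have h1 := hE.hub N hN1 v hvN
    unfold hh at h1
    refine h1.trans ?_
    have h2 : (N : ℝ) ≤ 4 * D := by exact_mod_cast hND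
    have h3 : (N : ℝ) ^ 2 ≤ (4 * D) ^ 2 := pow_le_pow_left₀ (by positivity) h2 2
    have h4 := mul_le_mul_of_nonneg_left h3 (by linarith : (0 : ℝ) ≤ K)
    refine h4.trans (le_of_eq ?_)
    ring
  have hT2 : c₁ / (n : ℝ) ^ 3 * ∑ b ∈ Bn d N, cp (ES (Bn d N)) (pH d) v b * w b ≤ c₁ * K / n := by
    refine (mul_le_mul_of_nonneg_left hS2 (by positivity)).trans (le_of_eq ?_)
    field_simp
  have hT3 : c₂ * (1 / (D : ℝ) ^ 3 + P) * ∑ b ∈ Bn d N, cp (ES (Bn d N)) (pH d) v b ≤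
      16 * K * c₂ / n + 16 * K * c₂ * ((D : ℝ) ^ 2 * P) := by
    refine (mul_le_mul_of_nonneg_left hS3 (by positivity)).trans ?_
    have e : c₂ * (1 / (D : ℝ) ^ 3 + P) * (16 * K * (D : ℝ) ^ 2) =
        16 * K * c₂ * (1 / D) + 16 * K * c₂ * ((D : ℝ) ^ 2 * P) := by
      field_simp
    rw [e]
    have h1 : 1 / (D : ℝ) ≤ 1 / n := one_div_le_one_div_of_le hn0 hDR
    have h2 : 16 * K * c₂ * (1 / D) ≤ 16 * K * c₂ * (1 / n) :=
      mul_le_mul_of_nonneg_left h1 (by positivity)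
    have h3 : 16 * K * c₂ / n = 16 * K * c₂ * (1 / n) := by ring
    rw [h3]
    linarith
  rw [← hP]
  have hDP : 0 ≤ (D : ℝ) ^ 2 * P := by positivity
  have hn' : 0 < 1 / (n : ℝ) := by positivity
  have hfin1 : (1 + c₁ * K + 16 * K * c₂ + C₂ * K + 27) / (n : ℝ) =
      1 / n + c₁ * K / n + 16 * K * c₂ / n + C₂ * K / n + 27 / n := by ring
  have hfin2 : 16 * K * c₂ * ((D : ℝ) ^ 2 * P) ≤
      (1 + c₁ * K + 16 * K * c₂ + C₂ * K + 27) * (D : ℝ) ^ 2 * P := by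
    rw [mul_assoc (1 + c₁ * K + 16 * K * c₂ + C₂ * K + 27)]
    refine mul_le_mul_of_nonneg_right ?_ hDP
    have h1 : 0 ≤ c₁ * K := by positivity
    have h2 : 0 ≤ C₂ * K := by positivity
    linarith
  rw [hfin1]
  linarith

end Pool.KD
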